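import Pool.Agent.Lib_helper78.TT.W1
import Pool.Agent.Lib_helper27.DET.P
import Pool.Agent.Lib_helper27.DET.B
import Pool.Agent.Lib_helper23.DET.D1
import Pool.Agent.Lib_helper23.DET.D4

/-!
# Few rounds of queries: the deterministic search (MP_675993_lc)
-/

set_option autoImplicit false
set_option linter.unusedSectionVars false

namespace Pool.Agent.DET

open Pool.Agent.CK Pool.Agent.CKP Pool.Agent.PCL Pool.Agent.TT

variable {O : Lang}
variable {α β γ δ : Type} [ToD α] [ToD β] [ToD γ] [ToD δ]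

/-- the search for a witness of `|M|` less than `u` -/
def srchD (O : Lang) (W : ℕ → ℕ → Bool) (ℓ : ℕ → ℕ) (r k : ℕ)
    (Q : List Bool → List Bool → List (List Bool)) (V : List Bool → List Bool → Bool)
    (G : List Bool → List Bool) (d : Cmd) (kk : ℕ) (U τ s N M : List Unit) (u : ℕ) : Bool :=
  ((search (gD O W ℓ r k Q V G U τ s) O d kk (q1 M u) N).any fun y =>
    chk W M u (CKP.ofBits y)) ||
  ((asked (gD O W ℓ r k Q V G U τ s) (q1 M u) N).any fun qs =>
    (exD O W ℓ r k Q G U τ s M qs).any fun w => chk W M u w)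

section

variable {W : ℕ → ℕ → Bool} {ℓ : ℕ → ℕ} {r k k1 : ℕ} {Q : List Bool → List Bool → List (List Bool)}
    {V : List Bool → List Bool → Bool} {G : List Bool → List Bool}

theorem PTime.srchD (hO : PTime O O) (hver : Ver O W ℓ) (r k : ℕ)
    (hQ : PTime O (fun p : List Bool × List Bool => Q p.1 p.2))
    (hQl : ∀ y a, (Q y a).length ≤ y.length + (y.length + 2) ^ k1)
    (hV : PTime O (fun p : List Bool × List Bool => V p.1 p.2)) (hG : PTime O G)
    (d : Cmd) (kk : ℕ) {U τ s N M : γ → List Unit} {u : γ → ℕ} (hU : PTime O U)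
    (hτ : PTime O τ) (hs : PTime O s) (hN : PTime O N) (hM : PTime O M) (hu : PTime O u) :
    PTime O (fun a => DET.srchD O W ℓ r k Q V G d kk (U a) (τ a) (s a) (N a) (M a) (u a)) := by
  have hg : PTime O (fun p : γ × List (List Bool) =>
      CKP.gD O W ℓ r k Q V G (U p.1) (τ p.1) (s p.1) p.2) :=
    PTime.gD hver r k hQ hQl hV hG (hU.comp PTime.id.fst) (hτ.comp PTime.id.fst)
      (hs.comp PTime.id.fst) PTime.id.snd
  have hq : PTime O (fun a => q1 (M a) (u a)) := by
    unfold q1
    exact PTime.enc ((PTime.const D.nil).consD (hM.code.consD hu.code))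
  unfold DET.srchD
  refine PTime.or ?_ ?_
  · refine PTime.any (f := fun a y => CKP.chk W (M a) (u a) (CKP.ofBits y))
      (ptime_search (G := fun a => CKP.gD O W ℓ r k Q V G (U a) (τ a) (s a)) hO d kk hg hq hN) ?_
    exact PTime.chk hver (hM.comp PTime.id.fst) (hu.comp PTime.id.fst)
      (PTime.ofBits PTime.id.snd)
  · refine PTime.any (f := fun a qs => (CKP.exD O W ℓ r k Q G (U a) (τ a) (s a) (M a) qs).any
      fun w => CKP.chk W (M a) (u a) w)
      (ptime_asked (G := fun a => CKP.gD O W ℓ r k Q V G (U a) (τ a) (s a)) hg hq hN) ?_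
    refine PTime.any (f := fun (p : γ × List (List Bool)) w => CKP.chk W (M p.1) (u p.1) w)
      (PTime.exD hver r k hQ hQl hG (hU.comp PTime.id.fst) (hτ.comp PTime.id.fst)
        (hs.comp PTime.id.fst) (hM.comp PTime.id.fst) PTime.id.snd) ?_
    exact PTime.chk hver (hM.comp PTime.id.fst.fst) (hu.comp PTime.id.fst.fst) PTime.id.snd

theorem chk_iff {M : List Unit} {u w : ℕ} :
    chk W M u w = true ↔ W M.length w = true ∧ w < u := by
  unfold chk
  rw [Bool.and_eq_true, decide_eq_true_eq]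

theorem srchD_sound {d : Cmd} {kk : ℕ} {U τ s N M : List Unit} {u : ℕ}
    (h : srchD O W ℓ r k Q V G d kk U τ s N M u = true) : ∃ w < u, W M.length w = true := by
  unfold srchD at h
  rw [Bool.or_eq_true] at h
  rcases h with h | h
  · rw [List.any_eq_true] at h
    obtain ⟨y, -, hy⟩ := h
    rw [chk_iff] at hy
    exact ⟨_, hy.2, hy.1⟩
  · rw [List.any_eq_true] at h
    obtain ⟨qs, -, h⟩ := h
    rw [List.any_eq_true] at h
    obtain ⟨w, -, hw⟩ := h
    rw [chk_iff] at hw
    exact ⟨w, hw.2, hw.1⟩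

/-- **The search finds a witness.** -/
theorem srchD_complete (hcut : Cut W ℓ) (htot : ∀ m, ∃ v, W m v = true)
    (hr : 1 ≤ r) {rr : List Bool → ℕ} {At : List Bool → ℕ → List Bool}
    (hF : FRD (UK O) (CL O W r k) Q V rr At) {d : Cmd} {kk e : ℕ}
    (hG : ∀ w, QL O d kk w = UK O (G w))
    (hd1 : ∀ (M : List Unit) (u : ℕ) (y : List Bool), wit O d kk (q1 M u) y = true →
      chk W M u (CKP.ofBits y) = true)
    (hd2 : ∀ (M : List Unit) (u v : ℕ), W M.length v = true → v < u →
      ∃ y, wit O d kk (q1 M u) y = true)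
    (hcomp : ∀ (g : List (List Bool) → List (List Bool)) (x : List Bool) (N : List Unit),
      x.length ≤ N.length → (x.length + 2) ^ kk < N.length →
      (∀ qs : List (List Bool), sz qs ≤ (N.length + 2) ^ e → (g qs).length < 2 ^ N.length) →
      (∃ y, wit O d kk x y = true) →
      search g O d kk x N ≠ [] ∨ ∃ qs ∈ asked g x N, sz qs ≤ (N.length + 2) ^ e ∧
        qs.map (QL O d kk) ∉ g qs)
    {U τ s N M : List Unit} {u : ℕ} (hU : 2 ^ rt r M.length ≤ U.length)
    (hUN : U.length < 2 ^ N.length) (hUτ : 2 ^ (τ.length * s.length) ≤ U.length)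
    (hx : (q1 M u).length ≤ N.length) (hN : ((q1 M u).length + 2) ^ kk < N.length)
    (hb : ∀ qs : List (List Bool), sz qs ≤ (N.length + 2) ^ e →
      (∀ q ∈ qs, rr (G q) ≤ τ.length) ∧
      ∀ i < τ.length, jA W Q ((qs.map G).map fun y => (y, At y i)) < 2 ^ s.length)
    {v : ℕ} (hv : W M.length v = true) (hvu : v < u) :
    srchD O W ℓ r k Q V G d kk U τ s N M u = true := by
  unfold srchD
  rw [Bool.or_eq_true]
  rcases hcomp (gD O W ℓ r k Q V G U τ s) (q1 M u) N hx hN
    (fun qs _ => by rw [gD_length]; exact hUN) (hd2 M u v hv hvu) with h | ⟨qs, hqs, hsz, hno⟩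
  · left
    obtain ⟨y, hy⟩ := List.exists_mem_of_ne_nil _ h
    rw [List.any_eq_true]
    exact ⟨y, hy, hd1 M u y (search_sound y hy)⟩
  · right
    rw [List.any_eq_true]
    refine ⟨qs, hqs, ?_⟩
    rcases gD_or_exD hcut htot hr hF hG hU (hb qs hsz).1 (hb qs hsz).2 hUτ with h | ⟨w, hw, h1, h2⟩
    · exact absurd h hno
    · rw [List.any_eq_true]
      exact ⟨w, hw, chk_iff.mpr ⟨h1, lt_of_le_of_lt (h2 v hv) hvu⟩⟩

end

/-! ### the decision -/

/-- the decision -/
def solD (O : Lang) (W : ℕ → ℕ → Bool) (ℓ : ℕ → ℕ) (r k : ℕ)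
    (Q : List Bool → List Bool → List (List Bool)) (V : List Bool → List Bool → Bool)
    (G : List Bool → List Bool) (d : Cmd) (kk R b e2 κ : ℕ) (ans : List Unit → ℕ → Bool)
    (U N : List Unit) (x : List Bool) : Bool :=
  ans (toNum N x) (gfind (srchD O W ℓ r k Q V G d kk U (List.replicate (tauJ R b N.length) ())
    (List.replicate (sJ e2 N.length) ()) (List.replicate ((N.length + 2) ^ κ) ())
    (toNum N x)) (List.replicate (ℓ (toNum N x).length) ())).2

section

variable {W : ℕ → ℕ → Bool} {ℓ : ℕ → ℕ} {r k k1 : ℕ} {Q : List Bool → List Bool → List (List Bool)}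
    {V : List Bool → List Bool → Bool} {G : List Bool → List Bool} {ans : List Unit → ℕ → Bool}

theorem PTime.solD (hO : PTime O O) (hver : Ver O W ℓ) (r k : ℕ)
    (hQ : PTime O (fun p : List Bool × List Bool => Q p.1 p.2))
    (hQl : ∀ y a, (Q y a).length ≤ y.length + (y.length + 2) ^ k1)
    (hV : PTime O (fun p : List Bool × List Bool => V p.1 p.2)) (hG : PTime O G)
    (d : Cmd) (kk R b e2 κ : ℕ) (hans : PTime O (fun p : List Unit × ℕ => ans p.1 p.2))
    {U N : γ → List Unit} {x : γ → List Bool} (hU : PTime O U) (hN : PTime O N)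
    (hx : PTime O x) :
    PTime O (fun a => DET.solD O W ℓ r k Q V G d kk R b e2 κ ans (U a) (N a) (x a)) := by
  unfold DET.solD
  have hM : PTime O (fun a => CKP.toNum (N a) (x a)) := PTime.toNum hN hx
  have hn : PTime O (fun a => List.replicate (ℓ (CKP.toNum (N a) (x a)).length) ()) :=
    UPoly.comp hver.hl hM
  have hK : PTime O (fun a => List.replicate (((N a).length + 2) ^ κ) ()) :=
    UPoly.comp (g := fun n => (n + 2) ^ κ) (UPoly.tb κ) hN
  have hg : PTime O (fun p : γ × ℕ => DET.srchD O W ℓ r k Q V G d kk (U p.1)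
      (List.replicate (tauJ R b (N p.1).length) ()) (List.replicate (sJ e2 (N p.1).length) ())
      (List.replicate (((N p.1).length + 2) ^ κ) ()) (CKP.toNum (N p.1) (x p.1)) p.2) :=
    PTime.srchD hO hver r k hQ hQl hV hG d kk (hU.comp PTime.id.fst)
      (UPoly.comp (g := tauJ R b) (tauJ_upoly R b) (hN.comp PTime.id.fst))
      (UPoly.comp (g := sJ e2) (sJ_upoly e2) (hN.comp PTime.id.fst))
      (hK.comp PTime.id.fst) (hM.comp PTime.id.fst) PTime.id.snd
  have hf : PTime O (fun a => (gfind (DET.srchD O W ℓ r k Q V G d kk (U a)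
      (List.replicate (tauJ R b (N a).length) ()) (List.replicate (sJ e2 (N a).length) ())
      (List.replicate (((N a).length + 2) ^ κ) ()) (CKP.toNum (N a) (x a)))
      (List.replicate (ℓ (CKP.toNum (N a) (x a)).length) ())).2) :=
    (PTime.gfind (g := fun a t => DET.srchD O W ℓ r k Q V G d kk (U a)
      (List.replicate (tauJ R b (N a).length) ()) (List.replicate (sJ e2 (N a).length) ())
      (List.replicate (((N a).length + 2) ^ κ) ()) (CKP.toNum (N a) (x a)) t) hn hg).snd
  have h9 := hans.comp (hM.pair hf)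
  simp only at h9
  exact h9

/-- the decision is right -/
theorem solD_eq (hver : Ver O W ℓ) (hcut : Cut W ℓ) (htot : ∀ m, ∃ v, W m v = true)
    (hr : 1 ≤ r) {rr : List Bool → ℕ} {At : List Bool → ℕ → List Bool}
    (hF : FRD (UK O) (CL O W r k) Q V rr At) {d : Cmd} {kk e : ℕ}
    (hG : ∀ w, QL O d kk w = UK O (G w))
    (hd1 : ∀ (M : List Unit) (u : ℕ) (y : List Bool), wit O d kk (q1 M u) y = true →
      chk W M u (CKP.ofBits y) = true)
    (hd2 : ∀ (M : List Unit) (u v : ℕ), W M.length v = true → v < u →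
      ∃ y, wit O d kk (q1 M u) y = true)
    (hcomp : ∀ (g : List (List Bool) → List (List Bool)) (x : List Bool) (N : List Unit),
      x.length ≤ N.length → (x.length + 2) ^ kk < N.length →
      (∀ qs : List (List Bool), sz qs ≤ (N.length + 2) ^ e → (g qs).length < 2 ^ N.length) →
      (∃ y, wit O d kk x y = true) →
      search g O d kk x N ≠ [] ∨ ∃ qs ∈ asked g x N, sz qs ≤ (N.length + 2) ^ e ∧
        qs.map (QL O d kk) ∉ g qs)
    {L : Lang} (hansL : ∀ (x : List Bool) (s : Bool × ℕ), LeastSpec W (num x) s →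
      ans (List.replicate (num x) ()) s.2 = L x) {R b e2 κ : ℕ} {x : List Bool} {N : ℕ}
    (hxN : num x ≤ N) (hEN : EJ r R b e2 N < (N + 2) ^ κ)
    (hq : ∀ u ≤ 2 ^ ℓ (num x), (q1 (List.replicate (num x) ()) u).length ≤ (N + 2) ^ κ ∧
      ((q1 (List.replicate (num x) ()) u).length + 2) ^ kk < (N + 2) ^ κ)
    (hb : ∀ qs : List (List Bool), sz qs ≤ ((N + 2) ^ κ + 2) ^ e →
      (∀ q ∈ qs, rr (G q) ≤ tauJ R b N) ∧
      ∀ i < tauJ R b N, jA W Q ((qs.map G).map fun y => (y, At y i)) < 2 ^ sJ e2 N) :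
    solD O W ℓ r k Q V G d kk R b e2 κ ans
      (List.replicate (2 ^ EJ r R b e2 N) ()) (List.replicate N ()) x = L x := by
  have hM : toNum (List.replicate N ()) x = List.replicate (num x) () :=
    toNum_eq _ _ (by rw [List.length_replicate]; exact hxN)
  obtain ⟨m, hm⟩ : ∃ m, m = num x := ⟨_, rfl⟩
  rw [← hm] at hxN hq hM
  unfold solD
  rw [hM]
  simp only [List.length_replicate]
  set g := srchD O W ℓ r k Q V G d kk (List.replicate (2 ^ EJ r R b e2 N) ())
    (List.replicate (tauJ R b N) ()) (List.replicate (sJ e2 N) ())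
    (List.replicate ((N + 2) ^ κ) ()) (List.replicate m ()) with hg
  have hgg : ∀ t ∈ visT (gSt W m) (List.replicate (ℓ m) ()), g t = gSt W m t := by
    intro t ht
    have htle : t ≤ 2 ^ ℓ m := by
      have := visT_le _ _ t ht
      rwa [List.length_replicate] at this
    rw [Bool.eq_iff_iff, gSt_iff]
    constructor
    · intro h
      rw [hg] at h
      obtain ⟨w, hw, hW⟩ := srchD_sound h
      rw [List.length_replicate] at hW
      exact ⟨w, hw, hW⟩
    · rintro ⟨v, hvt, hv⟩
      rw [hg]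
      have hE : rt r m ≤ EJ r R b e2 N :=
        (rt_mono r hxN).trans (Nat.le_add_right _ _)
      refine srchD_complete (v := v) hcut htot hr hF hG hd1 hd2 hcomp ?_ ?_ ?_ ?_ ?_ ?_ ?_ hvt
      · rw [List.length_replicate, List.length_replicate]
        exact Nat.pow_le_pow_right (by norm_num) hE
      · rw [List.length_replicate, List.length_replicate]
        exact Nat.pow_lt_pow_right (by norm_num) hEN
      · rw [List.length_replicate, List.length_replicate, List.length_replicate]
        exact Nat.pow_le_pow_right (by norm_num) (Nat.le_add_left _ _)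
      · rw [List.length_replicate]
        exact (hq t htle).1
      · rw [List.length_replicate]
        exact (hq t htle).2
      · intro qs h1
        rw [List.length_replicate] at h1
        have h2 := hb qs h1
        rw [List.length_replicate, List.length_replicate]
        exact h2
      · rw [List.length_replicate]
        exact hv
  rw [gfind_congr hgg]
  have hsp := gfind_spec (g := gSt W m) (P := fun v => W m v = true) (L := ℓ m)
    (fun t _ => gSt_iff) (fun v hv => hver.hb m v hv)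
  have h1 := hsp.1.mpr (htot m)
  have h2 := hsp.2.1 h1
  have h3 : LeastSpec W (num x) (gfind (gSt W m) (List.replicate (ℓ m) ())) := by
    rw [← hm]
    refine ⟨hsp.1, fun _ => ⟨h2.1, fun v hv h => h2.2 v hv h⟩⟩
  rw [hm] at h3 ⊢
  exact hansL x _ h3

end

/-- powers of powers -/
theorem pow_pow_le (N κ e : ℕ) : ((N + 2) ^ κ + 2) ^ e ≤ (N + 2) ^ ((κ + 2) * e) := by
  rw [pow_mul]
  refine Nat.pow_le_pow_left ?_ e
  have h1 : 1 ≤ (N + 2) ^ κ := Nat.one_le_pow _ _ (by omega)
  have h2 : (N + 2) ^ (κ + 2) = (N + 2) ^ κ * ((N + 2) * (N + 2)) := by ring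
  have h3 : 4 ≤ (N + 2) * (N + 2) := by nlinarith [Nat.zero_le N]
  have h4 : (N + 2) ^ κ * 4 ≤ (N + 2) ^ κ * ((N + 2) * (N + 2)) := Nat.mul_le_mul_left _ h3
  omega

/-- **`E^NP` in deterministic double exponential time.** -/
theorem dtime_fr (hneg : ∀ C, TuringComplete O C → FewRoundsComplete O C) (ε : ℝ) (L : Lang)
    (hε : 0 < ε) (hL : InENP O L) : InDTIMEdouble O ε L := by
  obtain ⟨r, hr, hrε⟩ := exists_r hε
  have hr0 : (0 : ℝ) < r := by exact_mod_cast (by omega : 0 < r)
  obtain ⟨W, ℓ, ans, hver, hcut, htot, hans, hansL⟩ := core_nest hL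
  obtain ⟨k, hk⟩ := CL_complete hver
  obtain ⟨Q, V, rr, At, k1, hQ, hV, hrr, hQl, hF⟩ := fr_data ((hneg _ (hk r hr)).2 (UK O) UK_inNP)
  obtain ⟨d, kk, hd1, hd2⟩ := exists_verD hver
  obtain ⟨G, hG, hGU⟩ := UK_hard (QL_inNP (O := O) d kk)
  obtain ⟨e, hcomp⟩ := search_asked (O := O) d kk (QL_qcode d kk)
  obtain ⟨κ, hκ4, hκ⟩ := exists_kap hver kk
  obtain ⟨e1, he1⟩ := exists_boundsD (W := W) hF hG hQ hQl ((κ + 2) * e)
  obtain ⟨b, hb⟩ := hrr (1 / ((e1 + 1 : ℕ) * (2 * r : ℕ) : ℝ)) (by positivity)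
  obtain ⟨e2, he2⟩ := he1 (b + 2)
  obtain ⟨n1, hn1⟩ := EJ_lt r (2 * r) b e2
  refine dtime_of_fun (sol := fun U N x => solD O W ℓ r k Q V G d kk (2 * r) b e2 κ ans U N x)
    (PTime.solD (PTime.ask (O := O) PTime.id) hver r k hQ hQl hV hG d kk (2 * r) b e2 κ hans PTime.id.fst
      PTime.id.snd.fst PTime.id.snd.snd) hr hrε b e2 n1 fun x => ?_
  obtain ⟨N, hN⟩ : ∃ N, N = 2 ^ (x.length + n1 + 1) := ⟨_, rfl⟩
  rw [← hN]
  have hNn1 : n1 ≤ N := by
    rw [hN]
    exact (Nat.lt_two_pow_self).le.trans (Nat.pow_le_pow_right (by norm_num) (by omega))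
  have hxN : num x ≤ N := by
    rw [hN]
    exact (num_lt x).le.trans (Nat.pow_le_pow_right (by norm_num) (by omega))
  refine solD_eq hver hcut htot hr hF hGU hd1 hd2 hcomp hansL hxN ?_ ?_ ?_
  · exact (hn1 N hNn1).trans_le (Nat.pow_le_pow_right (by omega) hκ4)
  · intro u hu
    have h1 := hκ N (List.replicate (num x) ()) u (by rw [List.length_replicate]; exact hxN)
      (by rw [List.length_replicate]; exact hu)
    exact h1
  · intro qs hqs
    obtain ⟨g1, g2⟩ := he2 N qs (hqs.trans (pow_pow_le N κ e))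
    constructor
    · intro q hq
      have h2 := g1 q hq
      have h3 := hb (G q)
      have h4 : (((G q).length : ℕ) : ℝ) ^ (1 / ((e1 + 1 : ℕ) * (2 * r : ℕ) : ℝ)) ≤
          ((N + 2 : ℕ) : ℝ) ^ (1 / ((2 * r : ℕ) : ℝ)) := by
        have h5 : (((G q).length : ℕ) : ℝ) ≤ ((N + 2 : ℕ) : ℝ) ^ (e1 : ℝ) := by
          rw [Real.rpow_natCast]
          exact_mod_cast h2
        refine (Real.rpow_le_rpow (by positivity) h5 (by positivity)).trans ?_
        rw [← Real.rpow_mul (by positivity)]
        refine Real.rpow_le_rpow_of_exponent_le ?_ ?_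
        · exact_mod_cast (by omega : 1 ≤ N + 2)
        · push_cast
          rw [mul_one_div, div_le_div_iff₀ (by positivity) (by positivity)]
          nlinarith
      have h6 := rt_ge_real (r := 2 * r) (by omega) (N + 2)
      have h7 : ((rr (G q) : ℕ) : ℝ) ≤ ((rt (2 * r) (N + 2) + b : ℕ) : ℝ) := by
        push_cast at h3 h4 h6 ⊢
        linarith
      exact_mod_cast h7
    · intro i hi
      have h2 : i ≤ (N + 2) ^ (b + 2) := by
        refine hi.le.trans ?_
        unfold tauJ
        have h3 : rt (2 * r) (N + 2) ≤ N + 3 := by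
          unfold rt
          refine (List.length_filter_le _ _).trans ?_
          rw [List.length_range]
        have h4 : b + 1 ≤ (N + 2) ^ b := by
          calc b + 1 ≤ 2 ^ b := Nat.lt_two_pow_self
            _ ≤ (N + 2) ^ b := Nat.pow_le_pow_left (by omega) b
        have h5 : (N + 2) ^ (b + 2) = (N + 2) ^ b * ((N + 2) * (N + 2)) := by ring
        rw [h5]
        have h6 : (b + 1) * ((N + 2) * (N + 2)) ≤ (N + 2) ^ b * ((N + 2) * (N + 2)) :=
          Nat.mul_le_mul_right _ h4
        refine le_trans ?_ h6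
        nlinarith [Nat.zero_le (b * N), Nat.zero_le (b * (N * N)), Nat.zero_le (N * N)]
      refine lt_of_le_of_lt (g2 i h2) ?_
      unfold sJ
      rw [Nat.size_eq_bits_len]
      have h3 : N + 2 < 2 ^ (N + 2).size := Nat.lt_size_self _
      refine lt_of_le_of_lt (Nat.pow_le_pow_left h3.le e2) ?_
      rw [← pow_mul, mul_comm]
      exact Nat.pow_lt_pow_right (by norm_num) (by omega)

end Pool.Agent.DET
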